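import Pool.Agent.helper40.TW.SpecG

set_option autoImplicit false

open Complex MeasureTheory Metric
open scoped ComplexConjugate ArithmeticFunction.vonMangoldt

namespace Pool.Agent.TWG

open Pool.Agent.helper6.LD (wt)
open Pool.Agent.helper85.BVP (ex)
open Pool.Agent.TW (Win Pw)

theorem SPL_sub (v : ℝ) (ρ : ℂ) :
    sp (1 / 16) v - ρ = ((1 + 1 / 16 - ρ.re : ℝ) : ℂ) + ((v - ρ.im : ℝ) : ℂ) * I := by
  apply Complex.ext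
  · simp [sp]
  · simp [sp]

/-- The bound of `tau` at large heights. -/
theorem SPL_tau (h v T t : ℝ) (hh : 0 < h) (hT : 0 < T) (hv : T ≤ |v|) (ht : t * (h * v ^ 2) ≤ 4) :
    t ≤ 8 / h * (‖((T : ℝ) : ℂ) + ((v - 0 : ℝ) : ℂ) * I‖ ^ (1 + 1))⁻¹ := by
  have h1 : ‖((T : ℝ) : ℂ) + ((v - 0 : ℝ) : ℂ) * I‖ ^ (1 + 1) = T ^ 2 + v ^ 2 := by
    rw [show (1 + 1 : ℕ) = 2 from rfl, ← Complex.normSq_eq_norm_sq, Complex.normSq_apply]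
    simp
    ring
  have h2 : T ^ 2 ≤ v ^ 2 := by
    rw [← sq_abs v]
    exact pow_le_pow_left₀ hT.le hv 2
  have hT2 : 0 < T ^ 2 := by positivity
  have hv2 : 0 < v ^ 2 := by linarith
  rw [h1]
  have h3 : t ≤ 4 / (h * v ^ 2) := by
    rw [le_div_iff₀ (by positivity)]
    exact ht
  refine h3.trans ?_
  rw [← div_eq_mul_inv, div_div, div_le_div_iff₀ (by positivity) (by positivity)]
  nlinarith

theorem SPL (hZFI : ZFI_stmt) (hSER : SER_stmt) (hEXP : EXP_stmt) (hZE1 : ZE1_stmt) (hTRI : TRI_stmt)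
    (hINV : INV_stmt) (hJAP : JAP_stmt) : SPL_stmt := by
  obtain ⟨CE, ME, hCE, hME, hE⟩ := hEXP (1 / 8) (by norm_num) (by norm_num)
  obtain ⟨CZ, hCZ, -, hZ⟩ := hZE1
  obtain ⟨CJ, hCJ, hJ⟩ := hJAP
  have hpi := Real.pi_pos
  refine ⟨CJ + 2 * Real.pi * CE + 8 * CZ * CJ, max ME ⌈Real.exp 4⌉₊ + 3, by positivity, by omega, ?_⟩
  intro M hM q χ hAdm K h hK hh
  obtain ⟨hq2, hqM, hχ⟩ := id hAdm
  have hMM : ME ≤ M := by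
    have := le_max_left ME ⌈Real.exp 4⌉₊
    omega
  have hM3 : 3 ≤ M := by omega
  have hM1 : (1 : ℝ) ≤ M := by
    have : (3 : ℝ) ≤ M := by exact_mod_cast hM3
    linarith
  have hMr3 : (3 : ℝ) ≤ M := by exact_mod_cast hM3
  have hM0 : (0 : ℝ) < M := by linarith
  have hlog : 4 ≤ Real.log M := by
    rw [Real.le_log_iff_exp_le hM0]
    have h1 : Real.exp 4 ≤ (⌈Real.exp 4⌉₊ : ℝ) := Nat.le_ceil _
    have h2 : (⌈Real.exp 4⌉₊ : ℝ) ≤ M := by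
      have := le_max_right ME ⌈Real.exp 4⌉₊
      exact_mod_cast (by omega : ⌈Real.exp 4⌉₊ ≤ M)
    linarith
  have hlog0 : 0 < Real.log M := by linarith
  obtain ⟨-, -, -, hZmem, hZlt, -, -⟩ := hZFI q χ hq2 hχ
  obtain ⟨-, -, -, hSPP, -, -⟩ := hSER q χ (K + 1) (1 / 16) (by omega) (by omega) (by norm_num)
  obtain ⟨-, hTint, hTsum, hTb, -, -⟩ := hTRI h hh
  obtain ⟨hIint, -⟩ := hINV q χ (K + 1) (1 / 16) h 0 (by omega) (by omega) (by norm_num) hh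
  -- the box
  obtain ⟨Z, hZd⟩ : ∃ Z, Z = ZS χ (bx (1 / 8) ((M : ℝ) ^ 6)) := ⟨_, rfl⟩
  have hbx : Bornology.IsBounded (bx (1 / 8) ((M : ℝ) ^ 6)) := by
    refine (Metric.isBounded_iff_subset_closedBall 0).2 ⟨1 + (M : ℝ) ^ 6, fun z hz => ?_⟩
    rw [mem_closedBall, dist_zero_right]
    obtain ⟨h1, h2, h3⟩ := hz
    refine (Complex.norm_le_abs_re_add_abs_im z).trans ?_
    have h4 : |z.re| ≤ 1 := by
      rw [abs_le]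
      constructor <;> linarith
    linarith
  have hZm : ∀ ρ, ρ ∈ Z ↔ ρ ∈ bx (1 / 8) ((M : ℝ) ^ 6) ∧ LL χ ρ = 0 := by
    intro ρ
    rw [hZd]
    exact hZmem _ hbx ρ
  have ha : ∀ ρ ∈ Z, 0 < 1 + 1 / 16 - ρ.re := by
    intro ρ hρ
    have := (hZlt ρ ((hZm ρ).1 hρ).2).2
    linarith
  rw [← hZd]
  obtain ⟨T, hT⟩ : ∃ T : ℝ, T = (M : ℝ) ^ 5 := ⟨_, rfl⟩
  have hT0 : 0 < T := by rw [hT]; positivity
  obtain ⟨E, hEd⟩ : ∃ E : ℝ, E = CE * Real.log M * ((K : ℝ) + 1) ^ 2 * 8 ^ (K + 1) := ⟨_, rfl⟩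
  have hE0 : 0 ≤ E := by rw [hEd]; positivity
  -- the majorant
  have hmaj : ∀ v : ℝ, tau h v * ‖PP χ (K + 1) (1 / 16) v‖ ≤
      (∑ ρ ∈ Z, h * (mz χ ρ : ℝ) * (‖((1 + 1 / 16 - ρ.re : ℝ) : ℂ) + ((v - ρ.im : ℝ) : ℂ) * I‖ ^ (K + 1))⁻¹) +
      E * tau h v + CZ * 16 ^ (K + 1) * (8 / h) * (‖((T : ℝ) : ℂ) + ((v - 0 : ℝ) : ℂ) * I‖ ^ (1 + 1))⁻¹ := by
    intro v
    obtain ⟨ht0, hth, ht4⟩ := hTb v
    have hs0 : 0 ≤ ∑ ρ ∈ Z, h * (mz χ ρ : ℝ) *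
        (‖((1 + 1 / 16 - ρ.re : ℝ) : ℂ) + ((v - ρ.im : ℝ) : ℂ) * I‖ ^ (K + 1))⁻¹ :=
      Finset.sum_nonneg fun ρ _ => by positivity
    have hl0 : 0 ≤ CZ * 16 ^ (K + 1) * (8 / h) * (‖((T : ℝ) : ℂ) + ((v - 0 : ℝ) : ℂ) * I‖ ^ (1 + 1))⁻¹ := by
      positivity
    rcases le_or_gt |v| T with hv | hv
    · have hv8 : |v| ≤ (M : ℝ) ^ 8 := by
        refine hv.trans ?_
        rw [hT]
        exact pow_le_pow_right₀ hM1 (by norm_num)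
      have h1 := hE M hMM q χ hAdm (1 / 16) v (K + 1) (by
        rw [div_le_div_iff₀ (by positivity) (by norm_num)]
        nlinarith) (by norm_num) hv8 (by omega)
      have h8 : ((1 / 8 : ℝ) ^ (K + 1))⁻¹ = 8 ^ (K + 1) := by
        rw [one_div, inv_pow, inv_inv]
      rw [h8] at h1
      have h1' : ‖PP χ (K + 1) (1 / 16) v + ∑ ρ ∈ ZS χ (closedBall (sp (1 / 16) v) (1 / 8)),
          (mz χ ρ : ℂ) * ((sp (1 / 16) v - ρ) ^ (K + 1))⁻¹‖ ≤ E := by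
        rw [hEd]
        refine h1.trans (le_of_eq ?_)
        push_cast
        ring
      have hsub : ZS χ (closedBall (sp (1 / 16) v) (1 / 8)) ⊆ Z := by
        intro ρ hρ
        rw [hZmem _ Metric.isBounded_closedBall] at hρ
        rw [hZm]
        refine ⟨?_, hρ.2⟩
        have hd := hρ.1
        rw [mem_closedBall, dist_comm, dist_eq_norm, SPL_sub] at hd
        have hre := Complex.abs_re_le_norm (((1 + 1 / 16 - ρ.re : ℝ) : ℂ) + ((v - ρ.im : ℝ) : ℂ) * I)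
        have him := Complex.abs_im_le_norm (((1 + 1 / 16 - ρ.re : ℝ) : ℂ) + ((v - ρ.im : ℝ) : ℂ) * I)
        have hre' : (((1 + 1 / 16 - ρ.re : ℝ) : ℂ) + ((v - ρ.im : ℝ) : ℂ) * I).re = 1 + 1 / 16 - ρ.re := by simp
        have him' : (((1 + 1 / 16 - ρ.re : ℝ) : ℂ) + ((v - ρ.im : ℝ) : ℂ) * I).im = v - ρ.im := by simp
        rw [hre'] at hre
        rw [him'] at him
        have hre2 := abs_le.1 (hre.trans hd)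
        have him2 := abs_le.1 (him.trans hd)
        have hlt := (hZlt ρ hρ.2).2
        have hT6 : T + 1 / 8 ≤ (M : ℝ) ^ 6 := by
          have h5 : (M : ℝ) ^ 6 = M * T := by rw [hT]; ring
          have h6 : 1 ≤ T := by rw [hT]; exact one_le_pow₀ hM1
          rw [h5]
          nlinarith
        have hv' := abs_le.1 hv
        refine ⟨by linarith [hre2.2], hlt.le, ?_⟩
        rw [abs_le]
        constructor <;> linarith [him2.1, him2.2, hv'.1, hv'.2]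
      have hsum : ‖∑ ρ ∈ ZS χ (closedBall (sp (1 / 16) v) (1 / 8)),
          (mz χ ρ : ℂ) * ((sp (1 / 16) v - ρ) ^ (K + 1))⁻¹‖ ≤ ∑ ρ ∈ Z, (mz χ ρ : ℝ) *
            (‖((1 + 1 / 16 - ρ.re : ℝ) : ℂ) + ((v - ρ.im : ℝ) : ℂ) * I‖ ^ (K + 1))⁻¹ := by
        calc _ ≤ ∑ ρ ∈ ZS χ (closedBall (sp (1 / 16) v) (1 / 8)), (mz χ ρ : ℝ) *
            (‖((1 + 1 / 16 - ρ.re : ℝ) : ℂ) + ((v - ρ.im : ℝ) : ℂ) * I‖ ^ (K + 1))⁻¹ := by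
              refine norm_sum_le_of_le _ fun ρ _ => ?_
              rw [SPL_sub, norm_mul, norm_inv, norm_pow, Complex.norm_natCast]
          _ ≤ _ := Finset.sum_le_sum_of_subset_of_nonneg hsub fun ρ _ _ => by positivity
      have hPP : ‖PP χ (K + 1) (1 / 16) v‖ ≤ (∑ ρ ∈ Z, (mz χ ρ : ℝ) *
            (‖((1 + 1 / 16 - ρ.re : ℝ) : ℂ) + ((v - ρ.im : ℝ) : ℂ) * I‖ ^ (K + 1))⁻¹) + E := by
        have h2 : PP χ (K + 1) (1 / 16) v = (PP χ (K + 1) (1 / 16) v +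
            ∑ ρ ∈ ZS χ (closedBall (sp (1 / 16) v) (1 / 8)), (mz χ ρ : ℂ) * ((sp (1 / 16) v - ρ) ^ (K + 1))⁻¹) -
            ∑ ρ ∈ ZS χ (closedBall (sp (1 / 16) v) (1 / 8)), (mz χ ρ : ℂ) * ((sp (1 / 16) v - ρ) ^ (K + 1))⁻¹ := by
          ring
        rw [h2]
        refine (norm_sub_le _ _).trans ?_
        linarith
      have hS0 : 0 ≤ ∑ ρ ∈ Z, (mz χ ρ : ℝ) *
            (‖((1 + 1 / 16 - ρ.re : ℝ) : ℂ) + ((v - ρ.im : ℝ) : ℂ) * I‖ ^ (K + 1))⁻¹ :=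
        Finset.sum_nonneg fun ρ _ => by positivity
      have hS1 : ∑ ρ ∈ Z, h * (mz χ ρ : ℝ) *
          (‖((1 + 1 / 16 - ρ.re : ℝ) : ℂ) + ((v - ρ.im : ℝ) : ℂ) * I‖ ^ (K + 1))⁻¹ =
          h * ∑ ρ ∈ Z, (mz χ ρ : ℝ) *
            (‖((1 + 1 / 16 - ρ.re : ℝ) : ℂ) + ((v - ρ.im : ℝ) : ℂ) * I‖ ^ (K + 1))⁻¹ := by
        rw [Finset.mul_sum]
        exact Finset.sum_congr rfl fun ρ _ => by ring
      rw [hS1]
      have h3 : tau h v * ‖PP χ (K + 1) (1 / 16) v‖ ≤ tau h v * ((∑ ρ ∈ Z, (mz χ ρ : ℝ) *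
            (‖((1 + 1 / 16 - ρ.re : ℝ) : ℂ) + ((v - ρ.im : ℝ) : ℂ) * I‖ ^ (K + 1))⁻¹) + E) :=
        mul_le_mul_of_nonneg_left hPP ht0
      have h4 : tau h v * (∑ ρ ∈ Z, (mz χ ρ : ℝ) *
            (‖((1 + 1 / 16 - ρ.re : ℝ) : ℂ) + ((v - ρ.im : ℝ) : ℂ) * I‖ ^ (K + 1))⁻¹) ≤
          h * (∑ ρ ∈ Z, (mz χ ρ : ℝ) *
            (‖((1 + 1 / 16 - ρ.re : ℝ) : ℂ) + ((v - ρ.im : ℝ) : ℂ) * I‖ ^ (K + 1))⁻¹) :=
        mul_le_mul_of_nonneg_right hth hS0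
      rw [mul_add] at h3
      linarith
    · have h1 : ‖PP χ (K + 1) (1 / 16) v‖ ≤ CZ * 16 ^ (K + 1) := by
        refine (hSPP v).trans ((hZ (K + 1) (1 / 16) (by omega) (by norm_num) (by norm_num)).trans (le_of_eq ?_))
        rw [one_div, inv_pow, inv_inv]
      have h2 := SPL_tau h v T (tau h v) hh hT0 hv.le ht4
      have h3 : tau h v * ‖PP χ (K + 1) (1 / 16) v‖ ≤
          (8 / h * (‖((T : ℝ) : ℂ) + ((v - 0 : ℝ) : ℂ) * I‖ ^ (1 + 1))⁻¹) * (CZ * 16 ^ (K + 1)) :=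
        mul_le_mul h2 h1 (norm_nonneg _) (by positivity)
      have h4 : (8 / h * (‖((T : ℝ) : ℂ) + ((v - 0 : ℝ) : ℂ) * I‖ ^ (1 + 1))⁻¹) * (CZ * 16 ^ (K + 1)) =
          CZ * 16 ^ (K + 1) * (8 / h) * (‖((T : ℝ) : ℂ) + ((v - 0 : ℝ) : ℂ) * I‖ ^ (1 + 1))⁻¹ := by ring
      have h5 : 0 ≤ E * tau h v := mul_nonneg hE0 ht0
      linarith
  -- integration
  have hi1 : ∀ ρ ∈ Z, Integrable (fun v : ℝ => h * (mz χ ρ : ℝ) *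
      (‖((1 + 1 / 16 - ρ.re : ℝ) : ℂ) + ((v - ρ.im : ℝ) : ℂ) * I‖ ^ (K + 1))⁻¹) := fun ρ hρ =>
    (hJ K (1 + 1 / 16 - ρ.re) ρ.im hK (ha ρ hρ)).1.const_mul _
  have hi2 : Integrable (fun v : ℝ => E * tau h v) := hTint.const_mul _
  have hi3 : Integrable (fun v : ℝ => CZ * 16 ^ (K + 1) * (8 / h) *
      (‖((T : ℝ) : ℂ) + ((v - 0 : ℝ) : ℂ) * I‖ ^ (1 + 1))⁻¹) := (hJ 1 T 0 (le_refl _) hT0).1.const_mul _
  have hi4 : Integrable (fun v : ℝ => ∑ ρ ∈ Z, h * (mz χ ρ : ℝ) *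
      (‖((1 + 1 / 16 - ρ.re : ℝ) : ℂ) + ((v - ρ.im : ℝ) : ℂ) * I‖ ^ (K + 1))⁻¹) := integrable_finsetSum _ hi1
  have hint : ∫ v : ℝ, tau h v * ‖PP χ (K + 1) (1 / 16) v‖ ≤
      (∑ ρ ∈ Z, h * (mz χ ρ : ℝ) *
        ∫ v : ℝ, (‖((1 + 1 / 16 - ρ.re : ℝ) : ℂ) + ((v - ρ.im : ℝ) : ℂ) * I‖ ^ (K + 1))⁻¹) +
      E * (2 * Real.pi) + CZ * 16 ^ (K + 1) * (8 / h) *
        ∫ v : ℝ, (‖((T : ℝ) : ℂ) + ((v - 0 : ℝ) : ℂ) * I‖ ^ (1 + 1))⁻¹ := by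
    refine (integral_mono hIint ((hi4.add hi2).add hi3) hmaj).trans (le_of_eq ?_)
    have e1 := integral_add (hi4.add hi2) hi3
    have e2 := integral_add hi4 hi2
    simp only [Pi.add_apply] at e1 e2 ⊢
    have e3 : ∑ ρ ∈ Z, ∫ v : ℝ, h * (mz χ ρ : ℝ) *
        (‖((1 + 1 / 16 - ρ.re : ℝ) : ℂ) + ((v - ρ.im : ℝ) : ℂ) * I‖ ^ (K + 1))⁻¹ =
        ∑ ρ ∈ Z, h * (mz χ ρ : ℝ) *
          ∫ v : ℝ, (‖((1 + 1 / 16 - ρ.re : ℝ) : ℂ) + ((v - ρ.im : ℝ) : ℂ) * I‖ ^ (K + 1))⁻¹ :=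
      Finset.sum_congr rfl fun ρ _ => integral_const_mul _ _
    rw [e1, e2, integral_finsetSum _ hi1, e3, integral_const_mul, integral_const_mul, hTsum]
  refine hint.trans ?_
  have hsq0 : 0 < √((K : ℝ) + 1) := Real.sqrt_pos.2 (by positivity)
  have j1 : ∑ ρ ∈ Z, h * (mz χ ρ : ℝ) *
        ∫ v : ℝ, (‖((1 + 1 / 16 - ρ.re : ℝ) : ℂ) + ((v - ρ.im : ℝ) : ℂ) * I‖ ^ (K + 1))⁻¹ ≤
      CJ * (h * 16 ^ K / √((K : ℝ) + 1) * ∑ ρ ∈ Z, (mz χ ρ : ℝ) * ((1 + 16 * (1 - ρ.re)) ^ K)⁻¹) := by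
    rw [← mul_assoc, Finset.mul_sum]
    refine Finset.sum_le_sum fun ρ hρ => ?_
    have h1 := (hJ K (1 + 1 / 16 - ρ.re) ρ.im hK (ha ρ hρ)).2
    have h2 : ((1 + 1 / 16 - ρ.re) ^ K)⁻¹ = 16 ^ K * ((1 + 16 * (1 - ρ.re)) ^ K)⁻¹ := by
      have h3 : 1 + 16 * (1 - ρ.re) = 16 * (1 + 1 / 16 - ρ.re) := by ring
      rw [h3, mul_pow, mul_inv, ← mul_assoc, mul_inv_cancel₀ (by positivity), one_mul]
    calc h * (mz χ ρ : ℝ) * ∫ v : ℝ, (‖((1 + 1 / 16 - ρ.re : ℝ) : ℂ) + ((v - ρ.im : ℝ) : ℂ) * I‖ ^ (K + 1))⁻¹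
        ≤ h * (mz χ ρ : ℝ) * (CJ * ((1 + 1 / 16 - ρ.re) ^ K)⁻¹ / √((K : ℝ) + 1)) :=
          mul_le_mul_of_nonneg_left h1 (by positivity)
      _ = _ := by
          rw [h2]
          ring
  have j2 : E * (2 * Real.pi) = 2 * Real.pi * CE * (Real.log M * ((K : ℝ) + 1) ^ 2 * 8 ^ (K + 1)) := by
    rw [hEd]
    ring
  have j3 : CZ * 16 ^ (K + 1) * (8 / h) * ∫ v : ℝ, (‖((T : ℝ) : ℂ) + ((v - 0 : ℝ) : ℂ) * I‖ ^ (1 + 1))⁻¹ ≤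
      8 * CZ * CJ * (16 ^ (K + 1) / (h * (M : ℝ) ^ 5)) := by
    have h1 := (hJ 1 T 0 (le_refl _) hT0).2
    have h2 : CJ * (T ^ 1)⁻¹ / √(((1 : ℕ) : ℝ) + 1) ≤ CJ * T⁻¹ := by
      rw [pow_one]
      refine div_le_self (by positivity) ?_
      rw [Real.one_le_sqrt]
      norm_num
    calc CZ * 16 ^ (K + 1) * (8 / h) * ∫ v : ℝ, (‖((T : ℝ) : ℂ) + ((v - 0 : ℝ) : ℂ) * I‖ ^ (1 + 1))⁻¹
        ≤ CZ * 16 ^ (K + 1) * (8 / h) * (CJ * T⁻¹) :=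
          mul_le_mul_of_nonneg_left (h1.trans h2) (by positivity)
      _ = _ := by
          rw [← hT]
          field_simp
  have k1 : 0 ≤ h * 16 ^ K / √((K : ℝ) + 1) * ∑ ρ ∈ Z, (mz χ ρ : ℝ) * ((1 + 16 * (1 - ρ.re)) ^ K)⁻¹ := by
    refine mul_nonneg (by positivity) (Finset.sum_nonneg fun ρ hρ => ?_)
    have h1 := ha ρ hρ
    have h2 : 0 < 1 + 16 * (1 - ρ.re) := by linarith
    positivity
  have k2 : 0 ≤ Real.log M * ((K : ℝ) + 1) ^ 2 * 8 ^ (K + 1) := by positivity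
  have k3 : 0 ≤ 16 ^ (K + 1) / (h * (M : ℝ) ^ 5) := by positivity
  obtain ⟨P1, hP1⟩ : ∃ P1, P1 = h * 16 ^ K / √((K : ℝ) + 1) * ∑ ρ ∈ Z, (mz χ ρ : ℝ) * ((1 + 16 * (1 - ρ.re)) ^ K)⁻¹ :=
    ⟨_, rfl⟩
  obtain ⟨P2, hP2⟩ : ∃ P2, P2 = Real.log M * ((K : ℝ) + 1) ^ 2 * 8 ^ (K + 1) := ⟨_, rfl⟩
  obtain ⟨P3, hP3⟩ : ∃ P3, P3 = 16 ^ (K + 1) / (h * (M : ℝ) ^ 5) := ⟨_, rfl⟩
  rw [← hP1] at j1 k1 ⊢
  rw [← hP2] at j2 k2 ⊢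
  rw [← hP3] at j3 k3 ⊢
  have e1 : (CJ + 2 * Real.pi * CE + 8 * CZ * CJ) * (P1 + P2 + P3) =
      CJ * P1 + 2 * Real.pi * CE * P2 + 8 * CZ * CJ * P3 +
      (CJ * (P2 + P3) + 2 * Real.pi * CE * (P1 + P3) + 8 * CZ * CJ * (P1 + P2)) := by ring
  have e2 : 0 ≤ CJ * (P2 + P3) + 2 * Real.pi * CE * (P1 + P3) + 8 * CZ * CJ * (P1 + P2) := by positivity
  rw [e1, j2]
  linarith

end Pool.Agent.TWG
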